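import Pool.Agent.Q278.GC.Stm2
import Pool.Agent.Q278.GC.A
import Pool.Agent.Q278.MC.R

/-!
Project GC (helper278), job K3: the covariance kernel is logarithmic with the sharp constant.
-/

set_option autoImplicit false

namespace Pool.Agent.Q65.GC

open Filter Topology MeasureTheory Complex Finset
open scoped FourierTransform ContDiff ComplexConjugate
open Pool.Agent.Q278.MC Pool.Agent.Q278.GC

/-! ### double sums -/

theorem geo_le (n : ℕ) : ∑ i ∈ range n, (1 / 2 : ℝ) ^ i ≤ 2 := by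
  have h : ∑ i ∈ range n, (1 / 2 : ℝ) ^ i = 2 - 2 * (1 / 2) ^ n := by
    induction n with
    | zero => simp
    | succ n ih => rw [sum_range_succ, ih, pow_succ]; ring
  rw [h]
  have : (0 : ℝ) ≤ (1 / 2) ^ n := by positivity
  linarith

theorem geo_shift (m n : ℕ) : ∑ i ∈ range n, (if m ≤ i then (1 / 2 : ℝ) ^ (i - m) else 0) ≤ 2 := by
  rw [← sum_filter]
  have h1 : (range n).filter (fun i => m ≤ i) = Ico m n := by
    ext i
    simp only [mem_filter, mem_range, mem_Ico]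
    omega
  rw [h1, sum_Ico_eq_sum_range]
  have h2 : ∀ i ∈ range (n - m), (1 / 2 : ℝ) ^ (m + i - m) = (1 / 2) ^ i := by
    intro i _
    rw [Nat.add_sub_cancel_left]
  rw [sum_congr rfl h2]
  exact geo_le _

/-- the half sum -/
theorem half_sum (v : ℕ → ℝ) (hv : ∀ k, 0 ≤ v k) (J J' : ℕ) :
    ∑ m ∈ range J, ∑ m' ∈ range J', (if m ≤ m' then (1 / 2 : ℝ) ^ (m' - m) * v m else 0) ≤
      2 * ∑ k ∈ range (min J J'), v k := by
  have h1 : ∀ m ∈ range J, ∑ m' ∈ range J', (if m ≤ m' then (1 / 2 : ℝ) ^ (m' - m) * v m else 0) ≤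
      if m < J' then 2 * v m else 0 := by
    intro m _
    split_ifs with h
    · have e : ∀ m' ∈ range J', (if m ≤ m' then (1 / 2 : ℝ) ^ (m' - m) * v m else 0) =
          (if m ≤ m' then (1 / 2 : ℝ) ^ (m' - m) else 0) * v m := by
        intro m' _
        split_ifs <;> ring
      rw [sum_congr rfl e, ← sum_mul]
      exact mul_le_mul_of_nonneg_right (geo_shift m J') (hv m)
    · refine le_of_eq (sum_eq_zero fun m' hm' => ?_)
      rw [if_neg]
      have := mem_range.1 hm'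
      omega
  refine (sum_le_sum h1).trans (le_of_eq ?_)
  rw [← sum_filter, mul_sum]
  congr 1
  ext m
  simp only [mem_filter, mem_range]
  omega

theorem dbl (v : ℕ → ℝ) (hv : ∀ k, 0 ≤ v k) (J J' : ℕ) :
    ∑ m ∈ range J, ∑ m' ∈ range J', (1 / 2 : ℝ) ^ (max m m' - min m m') * v (min m m') ≤
      4 * ∑ k ∈ range (min J J'), v k := by
  have h1 : ∀ m ∈ range J, ∀ m' ∈ range J', (1 / 2 : ℝ) ^ (max m m' - min m m') * v (min m m') ≤
      (if m ≤ m' then (1 / 2 : ℝ) ^ (m' - m) * v m else 0) +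
        (if m' ≤ m then (1 / 2 : ℝ) ^ (m - m') * v m' else 0) := by
    intro m _ m' _
    rcases le_total m m' with h | h
    · rw [max_eq_right h, min_eq_left h, if_pos h]
      have : 0 ≤ (if m' ≤ m then (1 / 2 : ℝ) ^ (m - m') * v m' else 0) := by
        split_ifs
        · exact mul_nonneg (by positivity) (hv _)
        · exact le_refl _
      linarith
    · rw [max_eq_left h, min_eq_right h, if_pos h]
      have : 0 ≤ (if m ≤ m' then (1 / 2 : ℝ) ^ (m' - m) * v m else 0) := by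
        split_ifs
        · exact mul_nonneg (by positivity) (hv _)
        · exact le_refl _
      linarith
  refine (sum_le_sum fun m hm => sum_le_sum (h1 m hm)).trans ?_
  simp only [sum_add_distrib]
  have h2 := half_sum v hv J J'
  have h3 := half_sum v hv J' J
  rw [sum_comm] at h3
  rw [min_comm] at h3
  linarith

/-- the cross terms -/
theorem cross (I J' : ℕ) : ∑ m ∈ range I, ∑ m' ∈ range J' \ range I, (1 / 2 : ℝ) ^ (max m m' - min m m') ≤ 2 := by
  have h1 : ∀ m ∈ range I, ∑ m' ∈ range J' \ range I, (1 / 2 : ℝ) ^ (max m m' - min m m') ≤ 2 * (1 / 2) ^ (I - m) := by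
    intro m hm
    have hm := mem_range.1 hm
    have e : ∀ m' ∈ range J' \ range I, (1 / 2 : ℝ) ^ (max m m' - min m m') ≤
        (if I ≤ m' then (1 / 2 : ℝ) ^ (m' - I) else 0) * (1 / 2) ^ (I - m) := by
      intro m' hm'
      simp only [Finset.mem_sdiff, Finset.mem_range, not_lt] at hm'
      rw [if_pos hm'.2, ← pow_add, max_eq_right (by omega), min_eq_left (by omega)]
      refine le_of_eq ?_
      congr 1
      omega
    refine (sum_le_sum e).trans ?_
    rw [← sum_mul]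
    refine mul_le_mul_of_nonneg_right ?_ (by positivity)
    refine le_trans ?_ (geo_shift I J')
    refine sum_le_sum_of_subset_of_nonneg sdiff_subset fun i _ _ => ?_
    split_ifs
    · positivity
    · exact le_refl _
  refine (sum_le_sum h1).trans ?_
  rw [← mul_sum]
  have h2 : ∑ m ∈ range I, (1 / 2 : ℝ) ^ (I - m) ≤ 1 := by
    rw [← sum_range_reflect]
    have e : ∀ j ∈ range I, (1 / 2 : ℝ) ^ (I - (I - 1 - j)) = 1 / 2 * (1 / 2) ^ j := by
      intro j hj
      have := mem_range.1 hj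
      have e2 : I - (I - 1 - j) = j + 1 := by omega
      rw [e2, pow_succ]
      ring
    rw [sum_congr rfl e, ← mul_sum]
    have := geo_le I
    linarith
  linarith

theorem pow_sum (n : ℕ) : ∑ k ∈ range n, (2 : ℝ) ^ k ≤ 2 ^ n := by
  have h : ∑ k ∈ range n, (2 : ℝ) ^ k = 2 ^ n - 1 := by
    induction n with
    | zero => simp
    | succ n ih => rw [sum_range_succ, ih, pow_succ]; ring
  rw [h]
  linarith

theorem tail_sum {δ : ℝ} (hδ : 0 < δ) (I n : ℕ) :
    ∑ k ∈ range n, (if I ≤ k then 1 / (1 + 2 ^ k * δ) else 0) ≤ 2 / (2 ^ I * δ) := by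
  have h1 : ∀ k ∈ range n, (if I ≤ k then 1 / (1 + 2 ^ k * δ) else 0) ≤
      (if I ≤ k then (1 / 2 : ℝ) ^ (k - I) else 0) * (1 / (2 ^ I * δ)) := by
    intro k _
    split_ifs with h
    · have e : (2 : ℝ) ^ k = 2 ^ (k - I) * 2 ^ I := by rw [← pow_add]; congr 1; omega
      have e2 : (1 / 2 : ℝ) ^ (k - I) * (1 / (2 ^ I * δ)) = 1 / (2 ^ k * δ) := by
        rw [e, one_div_pow, one_div_mul_one_div, mul_assoc]
      rw [e2]
      exact one_div_le_one_div_of_le (by positivity) (by linarith)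
    · rw [zero_mul]
  refine (sum_le_sum h1).trans ?_
  rw [← sum_mul]
  have h2 := geo_shift I n
  have h3 : (0 : ℝ) < 1 / (2 ^ I * δ) := by positivity
  calc (∑ i ∈ range n, if I ≤ i then (1 / 2 : ℝ) ^ (i - I) else 0) * (1 / (2 ^ I * δ)) ≤ 2 * (1 / (2 ^ I * δ)) :=
        mul_le_mul_of_nonneg_right h2 h3.le
    _ = 2 / (2 ^ I * δ) := by ring

/-! ### bilinearity -/

theorem add_CC {f g : ℝ → ℝ} (hf : CC (fc f)) (hg : CC (fc g)) : CC (fc (fun v => f v + g v)) := by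
  have e : fc (fun v => f v + g v) = fun v => fc f v + fc g v := by
    funext v
    simp [fc]
  rw [e]
  exact ⟨hf.cd.add hg.cd, hf.cs.add hg.cs⟩

theorem four_add {f g : ℝ → ℝ} (hf : CC (fc f)) (hg : CC (fc g)) (ξ : ℝ) :
    𝓕 (fc (fun v => f v + g v)) ξ = 𝓕 (fc f) ξ + 𝓕 (fc g) ξ := by
  have h := lc_four (f := ![f, g]) (by intro j; fin_cases j <;> simpa) ![1, 1] ξ
  have e : lc ![f, g] ![1, 1] = fun v => f v + g v := by
    funext v
    simp [lc, Fin.sum_univ_two]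
  rw [e] at h
  rw [h]
  simp [Fin.sum_univ_two]

theorem cv_add {f g h : ℝ → ℝ} (hf : CC (fc f)) (hg : CC (fc g)) (hh : CC (fc h)) :
    cv (fun v => f v + g v) h = cv f h + cv g h := by
  unfold cv
  rw [← integral_add (cv_int hf hh) (cv_int hg hh)]
  refine integral_congr_ae (Eventually.of_forall fun ξ => ?_)
  show |ξ| * (𝓕 (fc (fun v => f v + g v)) ξ * conj (𝓕 (fc h) ξ)).re =
    |ξ| * (𝓕 (fc f) ξ * conj (𝓕 (fc h) ξ)).re + |ξ| * (𝓕 (fc g) ξ * conj (𝓕 (fc h) ξ)).re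
  rw [four_add hf hg, add_mul, Complex.add_re]
  ring

theorem cv_add_right {f g h : ℝ → ℝ} (hf : CC (fc f)) (hg : CC (fc g)) (hh : CC (fc h)) :
    cv h (fun v => f v + g v) = cv h f + cv h g := by
  rw [cv_symm, cv_add hf hg hh, cv_symm f h, cv_symm g h]

/-! ### the functions -/

theorem wg_CC {H : ℝ → ℝ} (hH : Step H) : CC (fc (wg H)) := by
  constructor
  · have h1 : ContDiff ℝ ∞ (wg H) := by
      unfold wg
      exact (hH.cd.comp (contDiff_const.mul contDiff_id)).sub hH.cd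
    exact Complex.ofRealCLM.contDiff.comp h1
  · refine HasCompactSupport.intro (isCompact_Icc (a := (-1 : ℝ)) (b := 1)) fun v hv => ?_
    have h2 : wg H v = 0 := by
      unfold wg
      rw [Set.mem_Icc, not_and_or, not_le, not_le] at hv
      rcases hv with hv | hv
      · rw [hH.lo v hv.le, hH.lo (2 * v) (by linarith), sub_zero]
      · rw [hH.hi v hv.le, hH.hi (2 * v) (by linarith), sub_self]
    unfold fc
    rw [h2]
    simp

theorem fj_zero (H : ℝ → ℝ) (x : ℝ) : fj H 0 x = fun _ => 0 := by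
  funext v
  simp [fj]

theorem fj_succ (H : ℝ → ℝ) (J : ℕ) (x : ℝ) : fj H (J + 1) x = fun v => fj H J x v + sf (wg H) x (1 / 2 ^ J) v := by
  funext v
  unfold fj sf wg
  have e1 : (v - x) / (1 / 2 ^ J) = 2 ^ J * (v - x) := by
    rw [div_div_eq_mul_div, div_one, mul_comm]
  have e2 : 2 * ((v - x) / (1 / 2 ^ J)) = 2 ^ (J + 1) * (v - x) := by
    rw [e1, pow_succ]
    ring
  rw [e2, e1]
  ring

theorem zero_CC : CC (fc (fun _ : ℝ => (0 : ℝ))) := by
  have e : fc (fun _ : ℝ => (0 : ℝ)) = 0 := by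
    funext v
    simp [fc]
  rw [e]
  exact ⟨contDiff_const, HasCompactSupport.zero⟩

theorem fj_CC {H : ℝ → ℝ} (hH : Step H) (J : ℕ) (x : ℝ) : CC (fc (fj H J x)) := by
  induction J with
  | zero => rw [fj_zero]; exact zero_CC
  | succ J ih =>
    rw [fj_succ]
    exact add_CC ih (sf_CC (wg_CC hH) (by positivity) x)

theorem cv_zero_left (h : ℝ → ℝ) : cv (fun _ => 0) h = 0 := by
  unfold cv
  have e : fc (fun _ : ℝ => (0 : ℝ)) = 0 := by
    funext v
    simp [fc]
  have e2 : ∀ ξ, 𝓕 (fc (fun _ : ℝ => (0 : ℝ))) ξ = 0 := by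
    intro ξ
    rw [e, Real.fourier_eq']
    simp
  simp only [e2, zero_mul, Complex.zero_re, mul_zero, integral_zero]

theorem kj_half {H : ℝ → ℝ} (hH : Step H) (J : ℕ) (x : ℝ) {h : ℝ → ℝ} (hh : CC (fc h)) :
    cv (fj H J x) h = ∑ m ∈ range J, cv (sf (wg H) x (1 / 2 ^ m)) h := by
  induction J with
  | zero => rw [fj_zero, cv_zero_left]; simp
  | succ J ih =>
    rw [fj_succ, cv_add (fj_CC hH J x) (sf_CC (wg_CC hH) (by positivity) x) hh, ih, sum_range_succ]

theorem kj_sum {H : ℝ → ℝ} (hH : Step H) (J J' : ℕ) (x y : ℝ) :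
    kj H J J' x y = ∑ m ∈ range J, ∑ m' ∈ range J', cv (sf (wg H) x (1 / 2 ^ m)) (sf (wg H) y (1 / 2 ^ m')) := by
  unfold kj
  rw [kj_half hH J x (fj_CC hH J' y)]
  refine sum_congr rfl fun m _ => ?_
  rw [cv_symm, kj_half hH J' y (sf_CC (wg_CC hH) (by positivity) x)]
  exact sum_congr rfl fun m' _ => cv_symm _ _

theorem kj_symm (H : ℝ → ℝ) (J J' : ℕ) (x y : ℝ) : kj H J J' x y = kj H J' J y x := cv_symm _ _

theorem fj_sf (H : ℝ → ℝ) (J : ℕ) (x : ℝ) : fj H J x = sf (fj H J 0) x 1 := by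
  funext v
  unfold sf fj
  simp

theorem kj_diag (H : ℝ → ℝ) (J : ℕ) (x : ℝ) : kj H J J x x = kj H J J 0 0 := by
  unfold kj
  rw [cv_self, cv_self]
  unfold vr
  refine integral_congr_ae (Eventually.of_forall fun ξ => ?_)
  show |ξ| * ‖𝓕 (fc (fj H J x)) ξ‖ ^ 2 = |ξ| * ‖𝓕 (fc (fj H J 0)) ξ‖ ^ 2
  rw [fj_sf H J x, four_sf _ one_pos, norm_mul, norm_mul, one_mul]
  have e : ‖cexp (-(2 * Real.pi * x * ξ : ℝ) * I)‖ = 1 := by
    have : (-(2 * Real.pi * x * ξ : ℝ) * I : ℂ) = ((-(2 * Real.pi * x * ξ) : ℝ) : ℂ) * I := by push_cast; ring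
    rw [this, Complex.norm_exp_ofReal_mul_I]
  rw [e]
  simp

theorem kj_le_diag {H : ℝ → ℝ} (hH : Step H) (J : ℕ) (x y : ℝ) : kj H J J x y ≤ kj H J J 0 0 := by
  have h1 := cm_pos (f := ![fj H J x, fj H J y]) (by intro j; fin_cases j <;> simpa using fj_CC hH J _)
  have h2 := h1.dotProduct_mulVec_nonneg ![1, -1]
  simp only [star_trivial] at h2
  have h3 : dotProduct ![(1 : ℝ), -1] ((cm ![fj H J x, fj H J y]).mulVec ![1, -1]) =
      kj H J J x x - kj H J J x y - (kj H J J y x - kj H J J y y) := by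
    simp [dotProduct, Matrix.mulVec, cm, Fin.sum_univ_two, kj]
    ring
  rw [h3, kj_symm H J J y x, kj_diag H J x, kj_diag H J y] at h2
  linarith

/-! ### the bounds -/

section
variable {H : ℝ → ℝ} {C0 : ℝ}

/-- the hypothesis K1 for `wg H` -/
def Dec (H : ℝ → ℝ) (C : ℝ) : Prop := 1 ≤ C ∧ ∀ (m m' : ℕ) (x x' y : ℝ),
    |cv (sf (wg H) x (1 / 2 ^ m)) (sf (wg H) y (1 / 2 ^ m'))| ≤
      C * (1 / 2) ^ (max m m' - min m m') / (1 + 2 ^ (min m m') * |x - y|) ∧
    |cv (sf (wg H) x (1 / 2 ^ m)) (sf (wg H) y (1 / 2 ^ m')) - cv (sf (wg H) x' (1 / 2 ^ m)) (sf (wg H) y (1 / 2 ^ m'))| ≤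
      C * (1 / 2) ^ (max m m' - min m m') * 2 ^ (min m m') * |x - x'|

theorem Dec.one (h : Dec H C0) (m m' : ℕ) (x y : ℝ) :
    |cv (sf (wg H) x (1 / 2 ^ m)) (sf (wg H) y (1 / 2 ^ m'))| ≤ C0 * ((1 / 2) ^ (max m m' - min m m') * 1) := by
  refine ((h.2 m m' x x y).1).trans ?_
  have h0 : 0 ≤ C0 := by linarith [h.1]
  rw [mul_one]
  exact div_le_self (by positivity) (by have : 0 ≤ (2 : ℝ) ^ (min m m') * |x - y| := by positivity
                                        linarith)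

theorem Dec.sup (h : Dec H C0) (hH : Step H) (J J' : ℕ) (x y : ℝ) : |kj H J J' x y| ≤ 4 * C0 * (min J J' : ℕ) := by
  rw [kj_sum hH]
  have h0 : 0 ≤ C0 := by linarith [h.1]
  calc |∑ m ∈ range J, ∑ m' ∈ range J', cv (sf (wg H) x (1 / 2 ^ m)) (sf (wg H) y (1 / 2 ^ m'))| ≤
        ∑ m ∈ range J, |∑ m' ∈ range J', cv (sf (wg H) x (1 / 2 ^ m)) (sf (wg H) y (1 / 2 ^ m'))| := abs_sum_le_sum_abs _ _
    _ ≤ ∑ m ∈ range J, ∑ m' ∈ range J', |cv (sf (wg H) x (1 / 2 ^ m)) (sf (wg H) y (1 / 2 ^ m'))| :=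
        sum_le_sum fun m _ => abs_sum_le_sum_abs _ _
    _ ≤ ∑ m ∈ range J, ∑ m' ∈ range J', C0 * ((1 / 2) ^ (max m m' - min m m') * 1) :=
        sum_le_sum fun m _ => sum_le_sum fun m' _ => h.one m m' x y
    _ = C0 * ∑ m ∈ range J, ∑ m' ∈ range J', (1 / 2 : ℝ) ^ (max m m' - min m m') * 1 := by
        simp only [mul_sum]
    _ ≤ C0 * (4 * ∑ k ∈ range (min J J'), 1) := mul_le_mul_of_nonneg_left (dbl (fun _ => 1) (fun _ => zero_le_one) J J') h0
    _ = 4 * C0 * (min J J' : ℕ) := by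
        simp
        ring

theorem Dec.lip1 (h : Dec H C0) (hH : Step H) (J J' : ℕ) (x x' y : ℝ) :
    |kj H J J' x y - kj H J J' x' y| ≤ 4 * C0 * 2 ^ (min J J') * |x - x'| := by
  rw [kj_sum hH, kj_sum hH, ← sum_sub_distrib]
  have h0 : 0 ≤ C0 := by linarith [h.1]
  calc |∑ m ∈ range J, (∑ m' ∈ range J', cv (sf (wg H) x (1 / 2 ^ m)) (sf (wg H) y (1 / 2 ^ m')) -
          ∑ m' ∈ range J', cv (sf (wg H) x' (1 / 2 ^ m)) (sf (wg H) y (1 / 2 ^ m')))| ≤
        ∑ m ∈ range J, |∑ m' ∈ range J', cv (sf (wg H) x (1 / 2 ^ m)) (sf (wg H) y (1 / 2 ^ m')) -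
          ∑ m' ∈ range J', cv (sf (wg H) x' (1 / 2 ^ m)) (sf (wg H) y (1 / 2 ^ m'))| := abs_sum_le_sum_abs _ _
    _ ≤ ∑ m ∈ range J, ∑ m' ∈ range J', |cv (sf (wg H) x (1 / 2 ^ m)) (sf (wg H) y (1 / 2 ^ m')) -
          cv (sf (wg H) x' (1 / 2 ^ m)) (sf (wg H) y (1 / 2 ^ m'))| := by
        refine sum_le_sum fun m _ => ?_
        rw [← sum_sub_distrib]
        exact abs_sum_le_sum_abs _ _
    _ ≤ ∑ m ∈ range J, ∑ m' ∈ range J', C0 * |x - x'| * ((1 / 2) ^ (max m m' - min m m') * 2 ^ (min m m')) := by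
        refine sum_le_sum fun m _ => sum_le_sum fun m' _ => ?_
        refine ((h.2 m m' x x' y).2).trans (le_of_eq ?_)
        ring
    _ = C0 * |x - x'| * ∑ m ∈ range J, ∑ m' ∈ range J', (1 / 2 : ℝ) ^ (max m m' - min m m') * 2 ^ (min m m') := by
        simp only [mul_sum]
    _ ≤ C0 * |x - x'| * (4 * ∑ k ∈ range (min J J'), 2 ^ k) :=
        mul_le_mul_of_nonneg_left (dbl (fun k => 2 ^ k) (fun k => by positivity) J J') (by positivity)
    _ ≤ C0 * |x - x'| * (4 * 2 ^ (min J J')) :=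
        mul_le_mul_of_nonneg_left (by linarith [pow_sum (min J J')]) (by positivity)
    _ = 4 * C0 * 2 ^ (min J J') * |x - x'| := by ring

theorem Dec.lip (h : Dec H C0) (hH : Step H) (J J' : ℕ) (x x' y y' : ℝ) :
    |kj H J J' x y - kj H J J' x' y'| ≤ 4 * C0 * 2 ^ (min J J') * (|x - x'| + |y - y'|) := by
  have h1 := h.lip1 hH J J' x x' y
  have h2 := h.lip1 hH J' J y y' x'
  rw [kj_symm H J' J y x', kj_symm H J' J y' x', min_comm] at h2
  have h3 : kj H J J' x y - kj H J J' x' y' = (kj H J J' x y - kj H J J' x' y) + (kj H J J' x' y - kj H J J' x' y') := by ring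
  rw [h3]
  refine (abs_add_le _ _).trans ?_
  linarith

/-- the part with both scales at least `I` -/
theorem Dec.far (h : Dec H C0) {x y : ℝ} (hxy : x ≠ y) (I J J' : ℕ) :
    ∑ m ∈ range J, ∑ m' ∈ range J', (if I ≤ min m m' then |cv (sf (wg H) x (1 / 2 ^ m)) (sf (wg H) y (1 / 2 ^ m'))| else 0) ≤
      8 * C0 / (2 ^ I * |x - y|) := by
  have h0 : 0 ≤ C0 := by linarith [h.1]
  have hδ : 0 < |x - y| := abs_pos.2 (sub_ne_zero.2 hxy)
  calc ∑ m ∈ range J, ∑ m' ∈ range J', (if I ≤ min m m' then |cv (sf (wg H) x (1 / 2 ^ m)) (sf (wg H) y (1 / 2 ^ m'))| else 0)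
      ≤ ∑ m ∈ range J, ∑ m' ∈ range J', C0 * ((1 / 2) ^ (max m m' - min m m') *
          (if I ≤ min m m' then 1 / (1 + 2 ^ (min m m') * |x - y|) else 0)) := by
        refine sum_le_sum fun m _ => sum_le_sum fun m' _ => ?_
        split_ifs with hI
        · refine ((h.2 m m' x x y).1).trans (le_of_eq ?_)
          ring
        · simp
    _ = C0 * ∑ m ∈ range J, ∑ m' ∈ range J', (1 / 2 : ℝ) ^ (max m m' - min m m') *
          (if I ≤ min m m' then 1 / (1 + 2 ^ (min m m') * |x - y|) else 0) := by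
        simp only [mul_sum]
    _ ≤ C0 * (4 * ∑ k ∈ range (min J J'), (if I ≤ k then 1 / (1 + 2 ^ k * |x - y|) else 0)) := by
        refine mul_le_mul_of_nonneg_left ?_ h0
        refine dbl (fun k => if I ≤ k then 1 / (1 + 2 ^ k * |x - y|) else 0) (fun k => ?_) J J'
        split_ifs
        · positivity
        · exact le_refl _
    _ ≤ C0 * (4 * (2 / (2 ^ I * |x - y|))) := mul_le_mul_of_nonneg_left
        (mul_le_mul_of_nonneg_left (tail_sum hδ I _) (by norm_num)) h0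
    _ = 8 * C0 / (2 ^ I * |x - y|) := by ring

/-- splitting off the square -/
theorem split_sq (F : ℕ → ℕ → ℝ) {I J J' : ℕ} (h1 : I ≤ J) (h2 : I ≤ J') :
    ∑ m ∈ range J, ∑ m' ∈ range J', F m m' ≤ ∑ m ∈ range I, ∑ m' ∈ range I, F m m' +
      (∑ m ∈ range I, ∑ m' ∈ range J' \ range I, |F m m'| + ∑ m' ∈ range I, ∑ m ∈ range J \ range I, |F m m'|) +
      ∑ m ∈ range J, ∑ m' ∈ range J', (if I ≤ min m m' then |F m m'| else 0) := by
  have s1 : range I ⊆ range J := range_subset_range.2 h1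
  have s2 : range I ⊆ range J' := range_subset_range.2 h2
  have e1 : ∑ m ∈ range J, ∑ m' ∈ range J', F m m' =
      ∑ m ∈ range J \ range I, ∑ m' ∈ range J', F m m' + ∑ m ∈ range I, ∑ m' ∈ range J', F m m' :=
    (sum_sdiff s1).symm
  have e2 : ∀ m, ∑ m' ∈ range J', F m m' = ∑ m' ∈ range J' \ range I, F m m' + ∑ m' ∈ range I, F m m' :=
    fun m => (sum_sdiff s2).symm
  have e3 : ∑ m ∈ range J \ range I, ∑ m' ∈ range J', F m m' =
      ∑ m ∈ range J \ range I, ∑ m' ∈ range J' \ range I, F m m' + ∑ m ∈ range J \ range I, ∑ m' ∈ range I, F m m' := by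
    rw [← sum_add_distrib]
    exact sum_congr rfl fun m _ => e2 m
  have e4 : ∑ m ∈ range I, ∑ m' ∈ range J', F m m' =
      ∑ m ∈ range I, ∑ m' ∈ range J' \ range I, F m m' + ∑ m ∈ range I, ∑ m' ∈ range I, F m m' := by
    rw [← sum_add_distrib]
    exact sum_congr rfl fun m _ => e2 m
  have b1 : ∑ m ∈ range I, ∑ m' ∈ range J' \ range I, F m m' ≤ ∑ m ∈ range I, ∑ m' ∈ range J' \ range I, |F m m'| :=
    sum_le_sum fun m _ => sum_le_sum fun m' _ => le_abs_self _
  have b2 : ∑ m ∈ range J \ range I, ∑ m' ∈ range I, F m m' ≤ ∑ m' ∈ range I, ∑ m ∈ range J \ range I, |F m m'| := by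
    rw [sum_comm]
    exact sum_le_sum fun m _ => sum_le_sum fun m' _ => le_abs_self _
  have b3 : ∑ m ∈ range J \ range I, ∑ m' ∈ range J' \ range I, F m m' ≤
      ∑ m ∈ range J, ∑ m' ∈ range J', (if I ≤ min m m' then |F m m'| else 0) := by
    calc ∑ m ∈ range J \ range I, ∑ m' ∈ range J' \ range I, F m m' ≤
        ∑ m ∈ range J \ range I, ∑ m' ∈ range J' \ range I, (if I ≤ min m m' then |F m m'| else 0) := by
          refine sum_le_sum fun m hm => sum_le_sum fun m' hm' => ?_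
          simp only [Finset.mem_sdiff, Finset.mem_range, not_lt] at hm hm'
          rw [if_pos (le_min hm.2 hm'.2)]
          exact le_abs_self _
      _ ≤ ∑ m ∈ range J \ range I, ∑ m' ∈ range J', (if I ≤ min m m' then |F m m'| else 0) := by
          refine sum_le_sum fun m _ => sum_le_sum_of_subset_of_nonneg sdiff_subset fun m' _ _ => ?_
          split_ifs
          · exact abs_nonneg _
          · exact le_refl _
      _ ≤ _ := by
          refine sum_le_sum_of_subset_of_nonneg sdiff_subset fun m _ _ => sum_nonneg fun m' _ => ?_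
          split_ifs
          · exact abs_nonneg _
          · exact le_refl _
  linarith

theorem Dec.log (h : Dec H C0) (hH : Step H) {C2 : ℝ} (hC2 : ∀ J : ℕ, kj H J J 0 0 ≤ J * Real.log 2 / (2 * Real.pi ^ 2) + C2)
    (J J' : ℕ) {x y : ℝ} (hxy : x ≠ y) (hle : |x - y| ≤ 1) :
    kj H J J' x y ≤ 1 / (2 * Real.pi ^ 2) * Real.log (1 / |x - y|) + (C2 + 20 * C0) := by
  have h0 : 0 ≤ C0 := by linarith [h.1]
  have hδ : 0 < |x - y| := abs_pos.2 (sub_ne_zero.2 hxy)
  obtain ⟨N, hN1, hN2⟩ : ∃ N : ℕ, (2 : ℝ) ^ N ≤ 1 / |x - y| ∧ 1 / |x - y| < 2 ^ (N + 1) :=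
    exists_nat_pow_near (by rw [le_div_iff₀ hδ]; linarith) one_lt_two
  obtain ⟨I, hI⟩ : ∃ I, I = min (min J J') N := ⟨_, rfl⟩
  have h1 : I ≤ J := by omega
  have h2 : I ≤ J' := by omega
  have h3 : I ≤ N := by omega
  rw [kj_sum hH]
  have h4 := split_sq (fun m m' => cv (sf (wg H) x (1 / 2 ^ m)) (sf (wg H) y (1 / 2 ^ m'))) h1 h2
  refine h4.trans ?_
  have b1 : ∑ m ∈ range I, ∑ m' ∈ range I, cv (sf (wg H) x (1 / 2 ^ m)) (sf (wg H) y (1 / 2 ^ m')) ≤
      1 / (2 * Real.pi ^ 2) * Real.log (1 / |x - y|) + C2 := by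
    rw [← kj_sum hH]
    refine (kj_le_diag hH I x y).trans ((hC2 I).trans ?_)
    have e1 : (I : ℝ) * Real.log 2 ≤ Real.log (1 / |x - y|) := by
      rw [← Real.log_pow]
      refine Real.log_le_log (by positivity) (le_trans ?_ hN1)
      exact pow_le_pow_right₀ (by norm_num) h3
    have e2 : 0 < 1 / (2 * Real.pi ^ 2) := by positivity
    have e3 : (I : ℝ) * Real.log 2 / (2 * Real.pi ^ 2) = 1 / (2 * Real.pi ^ 2) * (I * Real.log 2) := by ring
    rw [e3]
    linarith [mul_le_mul_of_nonneg_left e1 e2.le]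
  have b2 : ∑ m ∈ range I, ∑ m' ∈ range J' \ range I, |cv (sf (wg H) x (1 / 2 ^ m)) (sf (wg H) y (1 / 2 ^ m'))| ≤ 2 * C0 := by
    calc ∑ m ∈ range I, ∑ m' ∈ range J' \ range I, |cv (sf (wg H) x (1 / 2 ^ m)) (sf (wg H) y (1 / 2 ^ m'))| ≤
        ∑ m ∈ range I, ∑ m' ∈ range J' \ range I, C0 * ((1 / 2) ^ (max m m' - min m m') * 1) :=
          sum_le_sum fun m _ => sum_le_sum fun m' _ => h.one m m' x y
      _ = C0 * ∑ m ∈ range I, ∑ m' ∈ range J' \ range I, (1 / 2 : ℝ) ^ (max m m' - min m m') := by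
          simp only [mul_sum, mul_one]
      _ ≤ C0 * 2 := mul_le_mul_of_nonneg_left (cross I J') h0
      _ = 2 * C0 := by ring
  have b3 : ∑ m' ∈ range I, ∑ m ∈ range J \ range I, |cv (sf (wg H) x (1 / 2 ^ m)) (sf (wg H) y (1 / 2 ^ m'))| ≤ 2 * C0 := by
    calc ∑ m' ∈ range I, ∑ m ∈ range J \ range I, |cv (sf (wg H) x (1 / 2 ^ m)) (sf (wg H) y (1 / 2 ^ m'))| ≤
        ∑ m' ∈ range I, ∑ m ∈ range J \ range I, C0 * ((1 / 2) ^ (max m' m - min m' m) * 1) := by
          refine sum_le_sum fun m' _ => sum_le_sum fun m _ => ?_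
          rw [max_comm m' m, min_comm m' m]
          exact h.one m m' x y
      _ = C0 * ∑ m' ∈ range I, ∑ m ∈ range J \ range I, (1 / 2 : ℝ) ^ (max m' m - min m' m) := by
          simp only [mul_sum, mul_one]
      _ ≤ C0 * 2 := mul_le_mul_of_nonneg_left (cross I J) h0
      _ = 2 * C0 := by ring
  have b4 : ∑ m ∈ range J, ∑ m' ∈ range J', (if I ≤ min m m' then
      |cv (sf (wg H) x (1 / 2 ^ m)) (sf (wg H) y (1 / 2 ^ m'))| else 0) ≤ 16 * C0 := by
    rcases Nat.lt_or_ge I (min J J') with h5 | h5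
    · have h6 : I = N := by omega
      refine (h.far hxy I J J').trans ?_
      rw [h6]
      have h7 : 1 < 2 ^ N * |x - y| * 2 := by
        rw [div_lt_iff₀ hδ, pow_succ] at hN2
        linarith
      have h8 : 0 < 2 ^ N * |x - y| := by positivity
      rw [div_le_iff₀ h8]
      nlinarith [h.1]
    · have h6 : ∀ m ∈ range J, ∀ m' ∈ range J', (if I ≤ min m m' then
          |cv (sf (wg H) x (1 / 2 ^ m)) (sf (wg H) y (1 / 2 ^ m'))| else 0) = 0 := by
        intro m hm m' hm'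
        rw [if_neg]
        have := mem_range.1 hm
        have := mem_range.1 hm'
        omega
      rw [sum_eq_zero fun m hm => sum_eq_zero (h6 m hm)]
      positivity
  linarith

theorem Dec.lim (h : Dec H C0) (hH : Step H) {x y : ℝ} (hxy : x ≠ y) :
    ∃ l : ℝ, Tendsto (fun p : ℕ × ℕ => kj H p.1 p.2 x y) atTop (𝓝 l) := by
  have h0 : 0 ≤ C0 := by linarith [h.1]
  have hs : Summable (fun q : ℕ × ℕ => cv (sf (wg H) x (1 / 2 ^ q.1)) (sf (wg H) y (1 / 2 ^ q.2))) := by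
    refine Summable.of_abs ?_
    refine summable_of_sum_le (c := 8 * C0 / (2 ^ 0 * |x - y|)) (fun q => abs_nonneg _) fun u => ?_
    obtain ⟨J, hJ⟩ : ∃ J : ℕ, u ⊆ range J ×ˢ range J := by
      refine ⟨(u.sup fun q => max q.1 q.2) + 1, fun q hq => ?_⟩
      have h1 : max q.1 q.2 ≤ u.sup fun q => max q.1 q.2 := le_sup (f := fun q : ℕ × ℕ => max q.1 q.2) hq
      simp only [mem_product, mem_range]
      omega
    refine (sum_le_sum_of_subset_of_nonneg hJ fun q _ _ => abs_nonneg _).trans ?_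
    rw [sum_product]
    have h2 := h.far hxy 0 J J
    simpa using h2
  have h3 : Tendsto (fun p : ℕ × ℕ => range p.1 ×ˢ range p.2) atTop atTop := by
    refine tendsto_atTop_finset_of_monotone ?_ ?_
    · intro p q hpq
      exact product_subset_product (range_subset_range.2 hpq.1) (range_subset_range.2 hpq.2)
    · intro q
      exact ⟨(q.1 + 1, q.2 + 1), by simp⟩
  refine ⟨∑' q : ℕ × ℕ, cv (sf (wg H) x (1 / 2 ^ q.1)) (sf (wg H) y (1 / 2 ^ q.2)), ?_⟩
  have h4 := hs.hasSum.comp h3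
  refine h4.congr fun p => ?_
  rw [kj_sum hH, Function.comp, sum_product]

end

theorem t_K3 : Pool.Agent.Q278.GC.S_K3 := by
  intro h1 h2 H hH
  obtain ⟨C0, hC0⟩ := h1 (wg H) (wg_CC hH)
  have hD : Dec H C0 := hC0
  obtain ⟨C2, hC2, hV⟩ := h2 H hH
  have h1C := hD.1
  refine ⟨C2 + 20 * C0, ?_, ?_, ?_, ?_, ?_, ?_, ?_⟩
  · linarith
  · positivity
  · intro n J x
    exact cm_pos (f := fun i => fj H (J i) (x i)) fun j => fj_CC hH _ _
  · intro J J' x y
    refine (hD.sup hH J J' x y).trans ?_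
    have e2 : (0 : ℝ) ≤ ((min J J' : ℕ) : ℝ) := Nat.cast_nonneg _
    nlinarith
  · intro J J' x x' y y'
    refine (hD.lip hH J J' x x' y y').trans ?_
    have e : (0 : ℝ) ≤ 2 ^ (min J J') * (|x - x'| + |y - y'|) := by positivity
    nlinarith
  · intro J J' x y hxy hle
    exact hD.log hH hV J J' hxy hle
  · refine ⟨fun x y => if hxy : x ≠ y then Classical.choose (hD.lim hH hxy) else 0, fun x y hxy => ?_⟩
    show Tendsto (fun p : ℕ × ℕ => kj H p.1 p.2 x y) atTop (𝓝 (if hxy : x ≠ y then Classical.choose (hD.lim hH hxy) else 0))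
    rw [dif_pos hxy]
    exact Classical.choose_spec (hD.lim hH hxy)

end Pool.Agent.Q65.GC
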