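import Pool.Agent.Q65.GC.K3
import Pool.Agent.Q278.GC.Stm5

/-!
Project GC (helper278), job K5: the properties of the covariance kernel used in the subcritical phase.
-/

set_option autoImplicit false

namespace Pool.Agent.Q65.GC

open Filter Topology MeasureTheory Complex Finset
open scoped FourierTransform ContDiff ComplexConjugate
open Pool.Agent.Q278.MC Pool.Agent.Q278.GC

theorem KerB_mono {K : ℕ → ℕ → ℝ → ℝ → ℝ} {κ C C' : ℝ} (h : KerB K κ C) (hC : C ≤ C') :
    KerB K κ C' where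
  C1 := h.C1.trans hC
  κ0 := h.κ0
  psd := h.psd
  sup J J' x y := (h.sup J J' x y).trans (mul_le_mul_of_nonneg_right hC (by positivity))
  lip J J' x x' y y' := (h.lip J J' x x' y y').trans
    (mul_le_mul_of_nonneg_right (mul_le_mul_of_nonneg_right hC (by positivity)) (by positivity))
  log J J' x y h1 h2 := (h.log J J' x y h1 h2).trans (by linarith)
  lim := h.lim

/-- the cross terms, with a distance -/
theorem crossG (I J J' : ℕ) (hIJ : I ≤ J) :
    ∑ m ∈ range I, ∑ m' ∈ range J' \ range J, (1 / 2 : ℝ) ^ (max m m' - min m m') ≤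
      2 * (1 / 2) ^ (J - I) := by
  have h1 : ∀ m ∈ range I, ∑ m' ∈ range J' \ range J, (1 / 2 : ℝ) ^ (max m m' - min m m') ≤
      (1 / 2) ^ (J - I) * ∑ m' ∈ range (J' - (J - I)) \ range I, (1 / 2 : ℝ) ^ (max m m' - min m m') := by
    intro m hm
    have hm := mem_range.1 hm
    have e1 : ∑ m' ∈ range J' \ range J, (1 / 2 : ℝ) ^ (max m m' - min m m') =
        ∑ m' ∈ (range (J' - (J - I)) \ range I), (1 / 2 : ℝ) ^ (max m (m' + (J - I)) - min m (m' + (J - I))) := by
      symm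
      refine sum_nbij (fun i => i + (J - I)) ?_ ?_ ?_ ?_
      · intro i hi
        simp only [Finset.mem_sdiff, Finset.mem_range, not_lt] at hi ⊢
        omega
      · intro i _ i' _ h
        simp only at h
        omega
      · intro i hi
        simp only [Finset.coe_sdiff, Set.mem_sdiff, Finset.mem_coe, Finset.mem_range, not_lt, Set.mem_image] at hi ⊢
        refine ⟨i - (J - I), ?_, ?_⟩
        · omega
        · omega
      · intro i _
        rfl
    rw [e1, mul_sum]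
    refine le_of_eq (sum_congr rfl fun m' hm' => ?_)
    simp only [Finset.mem_sdiff, Finset.mem_range, not_lt] at hm'
    rw [← pow_add]
    congr 1
    omega
  refine (sum_le_sum h1).trans ?_
  rw [← mul_sum, mul_comm]
  exact mul_le_mul_of_nonneg_right (cross I _) (by positivity)

section
variable {H : ℝ → ℝ} {C0 : ℝ}

theorem Dec.cau (h : Dec H C0) (hH : Step H) {j J J' : ℕ} (x y : ℝ) (h1 : j ≤ J) (h2 : J ≤ J') :
    |kj H j J x y - kj H j J' x y| ≤ 2 * C0 * (1 / 2) ^ (J - j) := by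
  have h0 : 0 ≤ C0 := by linarith [h.1]
  have s2 : range J ⊆ range J' := range_subset_range.2 h2
  have e1 : kj H j J x y - kj H j J' x y = -∑ m ∈ range j, ∑ m' ∈ range J' \ range J,
      cv (sf (wg H) x (1 / 2 ^ m)) (sf (wg H) y (1 / 2 ^ m')) := by
    rw [kj_sum hH, kj_sum hH, ← sum_sub_distrib, ← sum_neg_distrib]
    refine sum_congr rfl fun m _ => ?_
    rw [← sum_sdiff s2]
    ring
  rw [e1, abs_neg]
  calc |∑ m ∈ range j, ∑ m' ∈ range J' \ range J,
        cv (sf (wg H) x (1 / 2 ^ m)) (sf (wg H) y (1 / 2 ^ m'))| ≤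
        ∑ m ∈ range j, ∑ m' ∈ range J' \ range J,
          |cv (sf (wg H) x (1 / 2 ^ m)) (sf (wg H) y (1 / 2 ^ m'))| :=
        (abs_sum_le_sum_abs _ _).trans (sum_le_sum fun m _ => abs_sum_le_sum_abs _ _)
    _ ≤ ∑ m ∈ range j, ∑ m' ∈ range J' \ range J, C0 * ((1 / 2) ^ (max m m' - min m m') * 1) :=
        sum_le_sum fun m _ => sum_le_sum fun m' _ => h.one m m' x y
    _ = C0 * ∑ m ∈ range j, ∑ m' ∈ range J' \ range J, (1 / 2 : ℝ) ^ (max m m' - min m m') := by
        simp only [mul_sum, mul_one]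
    _ ≤ C0 * (2 * (1 / 2) ^ (J - j)) := mul_le_mul_of_nonneg_left (crossG j J J' h1) h0
    _ = 2 * C0 * (1 / 2) ^ (J - j) := by ring

/-- the pairs with a small and a large scale -/
theorem Dec.mix (h : Dec H C0) {x y : ℝ} (hxy : x ≠ y) (N J' : ℕ) :
    ∑ m ∈ range N, ∑ m' ∈ range J' \ range N, |cv (sf (wg H) x (1 / 2 ^ m)) (sf (wg H) y (1 / 2 ^ m'))| ≤
      2 * C0 / |x - y| * (N * (1 / 2) ^ N) := by
  have h0 : 0 ≤ C0 := by linarith [h.1]
  have hδ : 0 < |x - y| := abs_pos.2 (sub_ne_zero.2 hxy)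
  have h1 : ∀ m ∈ range N, ∑ m' ∈ range J' \ range N,
      |cv (sf (wg H) x (1 / 2 ^ m)) (sf (wg H) y (1 / 2 ^ m'))| ≤ 2 * C0 / |x - y| * (1 / 2) ^ N := by
    intro m hm
    have hm := mem_range.1 hm
    have h2 : ∀ m' ∈ range J' \ range N, |cv (sf (wg H) x (1 / 2 ^ m)) (sf (wg H) y (1 / 2 ^ m'))| ≤
        C0 / |x - y| * (1 / 2) ^ N * (if N ≤ m' then (1 / 2 : ℝ) ^ (m' - N) else 0) := by
      intro m' hm'
      simp only [Finset.mem_sdiff, Finset.mem_range, not_lt] at hm'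
      refine ((h.2 m m' x x y).1).trans ?_
      rw [if_pos hm'.2, max_eq_right (by omega), min_eq_left (by omega)]
      have e1 : C0 * (1 / 2) ^ (m' - m) / (1 + 2 ^ m * |x - y|) ≤ C0 * (1 / 2) ^ (m' - m) / (2 ^ m * |x - y|) :=
        div_le_div_of_nonneg_left (by positivity) (by positivity) (by linarith)
      refine e1.trans (le_of_eq ?_)
      have e2 : (1 / 2 : ℝ) ^ N * (1 / 2) ^ (m' - N) = (1 / 2) ^ (m' - m) * (1 / 2) ^ m := by
        rw [← pow_add, ← pow_add]
        congr 1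
        omega
      rw [mul_assoc (C0 / |x - y|), e2, one_div_pow 2 m]
      field_simp
    refine (sum_le_sum h2).trans ?_
    rw [← mul_sum]
    have h3 : ∑ m' ∈ range J' \ range N, (if N ≤ m' then (1 / 2 : ℝ) ^ (m' - N) else 0) ≤ 2 := by
      refine le_trans ?_ (geo_shift N J')
      refine sum_le_sum_of_subset_of_nonneg sdiff_subset fun i _ _ => ?_
      split_ifs
      · positivity
      · exact le_refl _
    calc C0 / |x - y| * (1 / 2) ^ N * ∑ m' ∈ range J' \ range N, (if N ≤ m' then (1 / 2 : ℝ) ^ (m' - N) else 0)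
        ≤ C0 / |x - y| * (1 / 2) ^ N * 2 := mul_le_mul_of_nonneg_left h3 (by positivity)
      _ = 2 * C0 / |x - y| * (1 / 2) ^ N := by ring
  refine (sum_le_sum h1).trans (le_of_eq ?_)
  rw [sum_const, card_range, nsmul_eq_mul]
  ring

theorem Dec.cau2 (h : Dec H C0) (hH : Step H) {N J1 J2 : ℕ} (h1 : N ≤ J1) (h2 : N ≤ J2) {x y η : ℝ}
    (hη : 0 < η) (hxy : η ≤ |x - y|) :
    |kj H J1 J2 x y - kj H N N x y| ≤
      4 * C0 / η * (N * (1 / 2) ^ N) + 8 * C0 / η * (1 / 2) ^ N := by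
  have h0 : 0 ≤ C0 := by linarith [h.1]
  have hδ : 0 < |x - y| := hη.trans_le hxy
  have hne : x ≠ y := fun e => by rw [e, sub_self, abs_zero] at hδ; exact lt_irrefl _ hδ
  have hne' : y ≠ x := fun e => hne e.symm
  have b1 := h.mix hne N J2
  have b2 := h.mix hne' N J1
  have b3 := h.far hne N J1 J2
  have e2 : ∑ m ∈ range N, ∑ m' ∈ range J1 \ range N,
      |cv (sf (wg H) y (1 / 2 ^ m)) (sf (wg H) x (1 / 2 ^ m'))| =
      ∑ m ∈ range N, ∑ m' ∈ range J1 \ range N,
        |cv (sf (wg H) x (1 / 2 ^ m')) (sf (wg H) y (1 / 2 ^ m))| :=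
    sum_congr rfl fun m _ => sum_congr rfl fun m' _ => by rw [cv_symm]
  rw [e2, abs_sub_comm y x] at b2
  have g1 : 2 * C0 / |x - y| ≤ 2 * C0 / η := div_le_div_of_nonneg_left (by positivity) hη hxy
  have g2 : 2 * C0 / |x - y| * (N * (1 / 2) ^ N) ≤ 2 * C0 / η * (N * (1 / 2) ^ N) :=
    mul_le_mul_of_nonneg_right g1 (by positivity)
  have g3 : 8 * C0 / (2 ^ N * |x - y|) ≤ 8 * C0 / η * (1 / 2) ^ N := by
    have e3 : 8 * C0 / η * (1 / 2) ^ N = 8 * C0 / (2 ^ N * η) := by
      rw [one_div_pow]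
      field_simp
    rw [e3]
    exact div_le_div_of_nonneg_left (by positivity) (by positivity)
      (mul_le_mul_of_nonneg_left hxy (by positivity))
  have s1 := split_sq (fun m m' => cv (sf (wg H) x (1 / 2 ^ m)) (sf (wg H) y (1 / 2 ^ m'))) h1 h2
  have s2 := split_sq (fun m m' => -cv (sf (wg H) x (1 / 2 ^ m)) (sf (wg H) y (1 / 2 ^ m'))) h1 h2
  simp only [abs_neg, sum_neg_distrib] at s2
  rw [← kj_sum hH, ← kj_sum hH] at s1 s2
  have e4 : 4 * C0 / η * (N * (1 / 2) ^ N) = 2 * (2 * C0 / η * ((N : ℝ) * (1 / 2) ^ N)) := by ring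
  rw [e4, abs_le]
  constructor
  · linarith
  · linarith

end

theorem t_K5 : Pool.Agent.Q278.GC.S_K5 := by
  intro h1 h2 H hH
  obtain ⟨C0, hC0⟩ := h1 (wg H) (wg_CC hH)
  have hD : Dec H C0 := hC0
  obtain ⟨C2, hC2, hV⟩ := h2 H hH
  have hK2 : S_K2 := by
    intro H' hH'
    obtain ⟨C, hC, h⟩ := h2 H' hH'
    refine ⟨C, hC, fun J => ?_⟩
    linarith [(abs_le.1 (h J)).2]
  obtain ⟨C3, hK3⟩ := t_K3 h1 hK2 H hH
  have h0 : 0 ≤ C0 := by linarith [hD.1]
  have hC3 : 0 ≤ C3 := by linarith [hK3.C1]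
  refine ⟨C3 + C2 + 2 * C0, KerB_mono hK3 (by linarith), by positivity, kj_symm H, ?_, ?_, ?_⟩
  · -- the diagonal
    have key : ∀ (j j' : ℕ) (x : ℝ), j ≤ j' →
        |kj H j j' x x - 1 / (2 * Real.pi ^ 2) * Real.log 2 * (min j j' : ℕ)| ≤ C3 + C2 + 2 * C0 := by
      intro j j' x hjj
      rw [min_eq_left hjj]
      have g1 := hD.cau hH x x (le_refl j) hjj
      rw [Nat.sub_self, pow_zero, mul_one] at g1
      have g2 := hV j
      rw [← kj_diag H j x] at g2
      have e1 : kj H j j' x x - 1 / (2 * Real.pi ^ 2) * Real.log 2 * (j : ℕ) =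
          -(kj H j j x x - kj H j j' x x) + (kj H j j x x - j * Real.log 2 / (2 * Real.pi ^ 2)) := by
        ring
      rw [e1]
      refine (abs_add_le _ _).trans ?_
      rw [abs_neg]
      linarith
    intro j j' x
    rcases le_total j j' with h | h
    · exact key j j' x h
    · rw [kj_symm, min_comm]
      exact key j' j x h
  · -- Cauchy in one variable
    have key : ∀ (j J J' : ℕ) (x y : ℝ), j ≤ J → J ≤ J' →
        |kj H j J x y - kj H j J' x y| ≤ (C3 + C2 + 2 * C0) * (1 / 2) ^ (J - j) := by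
      intro j J J' x y g1 g2
      refine (hD.cau hH x y g1 g2).trans (mul_le_mul_of_nonneg_right ?_ (by positivity))
      linarith
    intro j J J' x y g1 g2
    rcases le_total J J' with h | h
    · rw [min_eq_left h]
      exact key j J J' x y g1 h
    · rw [min_eq_right h, abs_sub_comm]
      exact key j J' J x y g2 h
  · -- convergence off the diagonal
    intro η ε hη hε
    have l1 : Tendsto (fun n : ℕ => (n : ℝ) * (1 / 2) ^ n) atTop (𝓝 0) :=
      tendsto_self_mul_const_pow_of_lt_one (by norm_num) (by norm_num)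
    have l2 : Tendsto (fun n : ℕ => (1 / 2 : ℝ) ^ n) atTop (𝓝 0) :=
      tendsto_pow_atTop_nhds_zero_of_lt_one (by norm_num) (by norm_num)
    have l3 : Tendsto (fun N : ℕ => 4 * C0 / η * ((N : ℝ) * (1 / 2) ^ N) + 8 * C0 / η * (1 / 2) ^ N)
        atTop (𝓝 (4 * C0 / η * 0 + 8 * C0 / η * 0)) := (l1.const_mul _).add (l2.const_mul _)
    rw [mul_zero, mul_zero, add_zero] at l3
    obtain ⟨N, hN⟩ := (l3.eventually (gt_mem_nhds (half_pos hε))).exists
    refine ⟨N, fun J1 J2 J3 J4 g1 g2 g3 g4 x y hxy _ => ?_⟩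
    have k1 := (hD.cau2 hH g1 g2 hη hxy).trans hN.le
    have k2 := (hD.cau2 hH g3 g4 hη hxy).trans hN.le
    have e1 : kj H J1 J2 x y - kj H J3 J4 x y =
        (kj H J1 J2 x y - kj H N N x y) - (kj H J3 J4 x y - kj H N N x y) := by ring
    rw [e1]
    refine (abs_sub _ _).trans ?_
    linarith

end Pool.Agent.Q65.GC
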